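import Mathlib
import Pool.Agent.R746.SDMain

/-!
# MP_2d1a26_lc, Q1: smooth definable functions are affine

The structure `(ℝ, <, +, ·|_(0,1)², ℤ)` is `Pool.Agent.R746.SD.LZ` with its structure on `ℝ`
(file `Pool/Agent/R746/SDGood.lean`): the language `LZ` has one binary function symbol
interpreted as addition, a binary relation symbol interpreted as `<`, a ternary relation symbol
interpreted as the graph of the multiplication restricted to `(0,1)²`, and a unary relation symbol
interpreted as `ℤ`.
-/

namespace Pool.Agent.Results.MP_2d1a26_lc.SmoothAffine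

open Pool.Agent.R746.SD

/-- **Full (positive) answer to Q1.** Every `C^∞` function `f : ℝ → ℝ` whose graph is definable
with real parameters in the structure `(ℝ, <, +, ·|_(0,1)², ℤ)` is affine. -/
theorem result (f : ℝ → ℝ) (hf : ContDiff ℝ (⊤ : ℕ∞) f)
    (hd : (Set.univ : Set ℝ).Definable LZ {v : Fin 2 → ℝ | v 1 = f (v 0)}) :
    ∃ a b : ℝ, ∀ x, f x = a * x + b := by
  obtain ⟨Q, hQ⟩ := shape hd
  exact affine hf hQ

end Pool.Agent.Results.MP_2d1a26_lc.SmoothAffine
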